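import Pool.Agent.H64.Alm4

set_option autoImplicit false

namespace Pool.Agent.Results.MP_20b4cf_al.Maximal

open Pool.Agent.H64.Alm

universe u v

/-- `U =_κ W`: dim((U+W)/U) + dim((U+W)/W) < κ -/
def Near {F : Type v} [Field F] {V : Type u} [AddCommGroup V] [Module F V]
    (κ : Cardinal.{u}) (U W : Submodule F V) : Prop :=
  Module.rank F (↥(U ⊔ W) ⧸ U.submoduleOf (U ⊔ W)) +
    Module.rank F (↥(U ⊔ W) ⧸ W.submoduleOf (U ⊔ W)) < κ

theorem result (κ : Cardinal.{u}) (hκ : Cardinal.aleph0 ≤ κ) (F : Type v) [Field F]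
    (V : Type u) [AddCommGroup V] [Module F V] (hV : Module.rank F V = κ)
    (n : ℕ) (hn : 3 ≤ n) (W : Fin n → Submodule F V) (hW : DirectSum.IsInternal W)
    (hdim : ∀ i, Module.rank F (W i) = κ) :
    ∃ M : Subgroup (LinearMap.GeneralLinearGroup F V),
      (∀ g : LinearMap.GeneralLinearGroup F V, g ∈ M ↔ ∃ σ : Equiv.Perm (Fin n), ∀ i,
        Near κ ((W i).map (g : V →ₗ[F] V)) (W (σ i))) ∧
      M ≠ ⊤ ∧ ¬ ∃ K : Subgroup (LinearMap.GeneralLinearGroup F V), M < K ∧ K < ⊤ := by
  subst hV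
  obtain ⟨e, hr, h1, h2, h3⟩ := projs W hW
  let S := smV (F := F) (V := V) hκ
  have H : Sys S e := ⟨h1, h2, h3, fun i h => by
    have h' : Module.rank F (LinearMap.range (e i)) < Module.rank F V := h
    rw [hr, hdim] at h'
    exact lt_irrefl _ h'⟩
  have hc := H.coatom (o := ⟨0, by omega⟩) (o' := ⟨1, by omega⟩) (by simp)
  refine ⟨M S e, fun g => ?_, hc.1, fun ⟨K, hK, hK'⟩ => hK'.ne (hc.2 K hK)⟩
  have hker : ∀ i, LinearMap.ker (1 - e i) = W i := by
    intro i
    ext x
    rw [← hr, LinearMap.mem_ker]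
    constructor
    · intro h
      exact ⟨x, (sub_eq_zero.mp h).symm⟩
    · rintro ⟨y, rfl⟩
      have := LinearMap.congr_fun (h1 i) y
      exact sub_eq_zero.mpr this.symm
  have near : ∀ i j, Near (Module.rank F V) ((W i).map (g : V →ₗ[F] V)) (W j) ↔
      S.I ((1 - e i) * (g⁻¹ : (Module.End F V)ˣ) * e j) ∧ S.I ((1 - e j) * g * e i) := by
    intro i j
    have k1 : LinearMap.ker ((1 - e i) * (g⁻¹ : (Module.End F V)ˣ) : Module.End F V)
        = (W i).map (g : V →ₗ[F] V) := by
      ext x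
      rw [← hker i, LinearMap.mem_ker]
      constructor
      · intro h
        exact ⟨(g⁻¹ : (Module.End F V)ˣ).1 x, h, LinearMap.congr_fun g.mul_inv x⟩
      · rintro ⟨y, hy, rfl⟩
        have : (g⁻¹ : (Module.End F V)ˣ).1 (g.1 y) = y := LinearMap.congr_fun g.inv_mul y
        show (1 - e i) ((g⁻¹ : (Module.End F V)ˣ).1 (g.1 y)) = 0
        rw [this]; exact hy
    have r1 := rank_quot _ (W j) _ k1
    have r2 := rank_quot (W j) ((W i).map (g : V →ₗ[F] V)) _ (hker j)
    rw [sup_comm] at r2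
    have q1 : (W j).map ((1 - e i) * (g⁻¹ : (Module.End F V)ˣ) : Module.End F V)
        = LinearMap.range ((1 - e i) * (g⁻¹ : (Module.End F V)ˣ) * e j : Module.End F V) := by
      rw [← hr j]; exact (LinearMap.range_comp _ _).symm
    have q2 : ((W i).map (g : V →ₗ[F] V)).map (1 - e j)
        = LinearMap.range ((1 - e j) * g * e i : Module.End F V) := by
      rw [← hr i, ← Submodule.map_comp]; exact (LinearMap.range_comp _ _).symm
    unfold Near
    rw [r1, r2, q1, q2]
    constructor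
    · intro h
      exact ⟨lt_of_le_of_lt (self_le_add_right _ _) h, lt_of_le_of_lt (self_le_add_left _ _) h⟩
    · intro h
      exact Cardinal.add_lt_of_lt hκ h.1 h.2
  constructor
  · rintro ⟨σ, hσ⟩
    refine ⟨σ, fun i => (near i (σ i)).2 ⟨?_, ?_⟩⟩
    · have := S.neg (S.mull ((1 - e i) * (g⁻¹ : (Module.End F V)ˣ))
        (S.mulr (g⁻¹ : (Module.End F V)ˣ) (hσ i)))
      have := S.mulr (e (σ i)) this
      convert this using 1
      set G : Module.End F V := g.1
      set G' : Module.End F V := (g⁻¹ : (Module.End F V)ˣ).1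
      have a : G * G' = 1 := g.mul_inv
      have b : G' * G = 1 := g.inv_mul
      calc (1 - e i) * G' * e (σ i)
          = (1 - e i) * G' * e (σ i) * (G * G') * e (σ i)
            - ((G' * G) * e i - e i * (G' * G) * e i) * G' * e (σ i) := by
            rw [a, b, mul_one, mul_one, one_mul, h1, sub_self, mul_assoc _ (e _) (e _), h1]; simp
        _ = _ := by noncomm_ring
    · have := S.mull (1 - e (σ i)) (hσ i)
      convert this using 1
      rw [mul_sub, ← mul_assoc (1 - e (σ i)) (e (σ i)), sub_mul 1 (e (σ i)) (e (σ i)), h1]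
      simp [mul_assoc]
  · rintro ⟨σ, hσ⟩
    refine ⟨σ, fun j => ?_⟩
    have hh : ∀ i, S.I ((1 - e (σ i)) * g * e i) := fun i => ((near i (σ i)).1 (hσ i)).2
    have a2 : S.I (e (σ j) * g - e (σ j) * g * e j) := by
      have : e (σ j) * (g : Module.End F V) - e (σ j) * g * e j
          = ∑ i ∈ Finset.univ.erase j, e (σ j) * g * e i := by
        rw [Finset.sum_erase_eq_sub (Finset.mem_univ _), ← Finset.mul_sum, h3, mul_one]
      rw [this]
      refine S.sum _ _ fun i hi => ?_
      have := S.mull (e (σ j)) (hh i)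
      rwa [← mul_assoc, ← mul_assoc, mul_sub, h2 _ _ (fun h =>
        Finset.ne_of_mem_erase hi (σ.injective h).symm), mul_one, sub_zero] at this
    have := S.sub (hh j) a2
    convert this using 1
    noncomm_ring

end Pool.Agent.Results.MP_20b4cf_al.Maximal
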